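import Pool.Agent.TH141.PC.General
import Pool.Agent.Q80.PB.Cond

set_option autoImplicit false

open Polynomial Pool.Agent.W77.IM Pool.Agent.W432.PC Pool.Agent.Q80.PB

/-!
# Hypothesis (H) fails for flat bundles of any rank on curves of any genus which are pulled back from
# systems on the line with many exponents modulo `ℤ`

For the description of flat bundles on curves see the result `CoversOfFourPoints`: the curve `C` has the
function field `F`, the bundle has the generic fibre `(V, ∇)`, and `E` is its restriction to an open
part, spread out over `R`. The rank, the number of singular points of the system on the line, the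
accessory parameters (their number is unbounded) and the covering `C → ℙ¹` are arbitrary. Examples: rank
`2 k`, five points with the exponents `a`, `a + 1/7` of multiplicity `k` each; rank four, three points
with the exponents `a, a + 1/11, a + 2/11, a + 3/11`.
-/

namespace Pool.Agent.Results.MP_0707f5_ag.CoversManyExponents

universe u v w

/-- Let `∇₀ = d/dx - ∑ j, A j / (x - α j)` be a system of rank `r` with `n` finite singular points over
a domain `R` of finite type over `ℤ`, of characteristic zero, with `α i - α j` invertible for `i ≠ j`.
Let its exponents be `e (some j) l / N` at `α j` and `e none l / N` at infinity. Assume that the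
difference of two of the integers `e y l` at the same point is prime to `N` or divisible by `N`, and
that no sum of exponents, one at each point, is an integer. Let `s y` be the number of exponents at `y`
modulo `ℤ`, and assume that the sum of the `s y`, over the points with `s y ≥ 2`, is larger than `N`.

Let `C` be a curve over `Frac R`, of any genus, with the function field `F`, which is algebraic over
`R(x)`, and let `(V, ∇)` be a flat bundle on `C` (the lattice `E` is its restriction to the part
`T(x) ≠ 0`, spread out over `R`) with a surjective flat homomorphism `φ` to the pullback of `∇₀` to `C`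
(for example the pullback itself).

Then there are a residue class modulo `N`, prime to `N`, and a nonzero `g ∈ R` such that for all large
primes `p` in the class the `p`-curvature of `(V, ∇)` is nonzero at every closed point of
`Spec R[1/g]` of residue characteristic `p`. In particular hypothesis (H) fails. -/
theorem result {R : Type u} [CommRing R] [IsDomain R] [CharZero R] [Algebra.FiniteType ℤ R]
    {n r : ℕ} (α : Fin n → R) (hα : ∀ i j, i ≠ j → IsUnit (α i - α j))
    (A : Fin n → Matrix (Fin r) (Fin r) R) (N : ℕ) (hN : 1 < N)
    (e : Option (Fin n) → Fin r → ℤ)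
    (he : ∀ j, HasExponents (A j) (fun l => (e (some j) l : ℚ) / N))
    (he' : HasExponents (∑ j, A j) (fun l => -(e none l : ℚ) / N))
    (h1 : ∀ y l l', IsCoprime (e y l - e y l') (N : ℤ) ∨ (N : ℤ) ∣ e y l - e y l')
    (h2 : ∀ κ : Option (Fin n) → Fin r, ¬ (N : ℤ) ∣ ∑ y, e y (κ y))
    (s : Option (Fin n) → ℕ)
    (hs : ∀ y, (Finset.univ.image fun l => (e y l : ZMod N)).card = s y)
    (h3 : N < ∑ y ∈ Finset.univ.filter (fun y => 2 ≤ s y), s y)
    -- the curve
    {F : Type v} [Field F] [Algebra R F] (hR : Function.Injective (algebraMap R F))
    (δ : Derivation R F F) (x : F) (hx : δ x = 1)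
    (halg : ∀ z : F, IsAlgebraic (Algebra.adjoin R ({x} : Set F)) z)
    -- the flat bundle
    (T : R[X]) (hT : T ≠ 0) {V : Type w} [AddCommGroup V] [Module F V] (nabla : V →+ V)
    (E : Submodule (CoordRing x T R) V) (hE : IsFlat δ x T nabla E)
    (φ : V →ₗ[F] (Fin r → F)) (hφ : Function.Surjective φ)
    (hflat : ∀ v, φ (nabla v) = pull δ x α A (φ v)) :
    (∃ a : ℤ, IsCoprime a (N : ℤ) ∧ ∃ g : R, g ≠ 0 ∧ ∃ P₀ : ℕ, ∀ p : ℕ, p.Prime → P₀ < p →
      (N : ℤ) ∣ a * p + 1 → ∀ (𝔪 : Ideal R) [𝔪.IsMaximal], (p : R) ∈ 𝔪 → g ∉ 𝔪 →
        ¬ PCurvAt nabla E p 𝔪) ∧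
    ¬ CondH nabla E :=
  bundle_of_bad hR δ x hx halg α A T hT nabla E hE φ hφ hflat N (by omega)
    (Pool.Agent.TH141.PC.many_exponents α hα A N hN e he he' h1 h2 s hs h3)

end Pool.Agent.Results.MP_0707f5_ag.CoversManyExponents
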