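import Pool.Agent.Q183.PS.Main
import Pool.Agent.Q80.PB.Cond

set_option autoImplicit false

open Polynomial Pool.Agent.W77.IM Pool.Agent.W432.PC Pool.Agent.Q80.PB

/-!
# Hypothesis (H) fails for the flat bundles on curves of any genus which are pulled back from the line
# with four (rank two) or three (rank three) essential singular points

A flat bundle on a curve `C` over `K = Frac R` is given by its generic fibre `(V, ∇)`, a vector space
over the function field `F` of `C` with a connection, and by a `∇`-stable `R[x, 1/T]`-module `E ⊆ V` of
finite type, `x` a nonconstant function on `C` (`δ = d/dx`): its restriction to the part `T(x) ≠ 0`,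
spread out over `R`. As `δ ^ p = 0` modulo `p`, the `p`-curvature is `∇ ^ p`. By Cartier's theorem a
bundle over a field of characteristic `p` has a full set of algebraic sections if and only if its
`p`-curvature vanishes.

The bundles considered map onto the pullback to `C` of a Fuchsian system on the line. Examples on smooth
proper curves `C` of genus `g ≥ 2`: if the residues of the system are diagonalizable and the
ramification indices of `C → ℙ¹` over its singular points are divisible by the denominators of the
exponents, then the pullback extends to a flat bundle on `C`.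

The positions of the singular points, the accessory parameters and the covering `C → ℙ¹` are arbitrary.
-/

namespace Pool.Agent.Results.MP_0707f5_ag.CoversOfFourPoints

universe u v w

/-- Let `∇₀ = d/dx - ∑ j, A j / (x - α j)` be a system of rank `r` with `n` finite singular points over
a domain `R` of finite type over `ℤ`, of characteristic zero, with `α i - α j` invertible for `i ≠ j`.
Let its exponents be `e (some j) l / N` at `α j` and `e none l / N` at infinity. Let `P` list `m` of the
`n + 1` points, where `r = 2`, `m = 4` or `r = 3`, `m = 3`, and let the exponents at all other points be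
integers. Assume that the differences of the `e (P i) l`, `i` fixed, are prime to `N` or divisible by
`N`, and that the sums `∑ i, e (P i) (κ i)` of exponents, one at each of the `m` points, are prime to
`N`.

Let `C` be a curve over `Frac R`, of any genus, with the function field `F`, which is algebraic over
`R(x)`, and let `(V, ∇)` be a flat bundle on `C` (the lattice `E` is its restriction to the part
`T(x) ≠ 0`, spread out over `R`) with a surjective flat homomorphism `φ` to the pullback of `∇₀` to `C`
(for example the pullback itself).

Then there are a residue class modulo `N`, prime to `N`, and a nonzero `g ∈ R` such that for all large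
primes `p` in the class the `p`-curvature of `(V, ∇)` is nonzero at every closed point of
`Spec R[1/g]` of residue characteristic `p`. In particular hypothesis (H) fails. -/
theorem result {R : Type u} [CommRing R] [IsDomain R] [CharZero R] [Algebra.FiniteType ℤ R]
    {n m r : ℕ} (hmr : (m - 2) * (r - 1) = 2)
    (α : Fin n → R) (hα : ∀ i j, i ≠ j → IsUnit (α i - α j))
    (A : Fin n → Matrix (Fin r) (Fin r) R) (N : ℕ) (hN : 1 < N)
    (e : Option (Fin n) → Fin r → ℤ)
    (he : ∀ j, HasExponents (A j) (fun l => (e (some j) l : ℚ) / N))
    (he' : HasExponents (∑ j, A j) (fun l => -(e none l : ℚ) / N))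
    (P : Fin m ↪ Option (Fin n)) (hint : ∀ x, x ∉ Set.range P → ∀ l, (N : ℤ) ∣ e x l)
    (h1 : ∀ i l l', IsCoprime (e (P i) l - e (P i) l') (N : ℤ) ∨ (N : ℤ) ∣ e (P i) l - e (P i) l')
    (h2 : ∀ κ : Fin m → Fin r, IsCoprime (∑ i, e (P i) (κ i)) (N : ℤ))
    -- the curve
    {F : Type v} [Field F] [Algebra R F] (hR : Function.Injective (algebraMap R F))
    (δ : Derivation R F F) (x : F) (hx : δ x = 1)
    (halg : ∀ z : F, IsAlgebraic (Algebra.adjoin R ({x} : Set F)) z)
    -- the flat bundle
    (T : R[X]) (hT : T ≠ 0) {V : Type w} [AddCommGroup V] [Module F V] (nabla : V →+ V)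
    (E : Submodule (CoordRing x T R) V) (hE : IsFlat δ x T nabla E)
    (φ : V →ₗ[F] (Fin r → F)) (hφ : Function.Surjective φ)
    (hflat : ∀ v, φ (nabla v) = pull δ x α A (φ v)) :
    (∃ a : ℤ, IsCoprime a (N : ℤ) ∧ ∃ g : R, g ≠ 0 ∧ ∃ P₀ : ℕ, ∀ p : ℕ, p.Prime → P₀ < p →
      (N : ℤ) ∣ a * p + 1 → ∀ (𝔪 : Ideal R) [𝔪.IsMaximal], (p : R) ∈ 𝔪 → g ∉ 𝔪 →
        ¬ PCurvAt nabla E p 𝔪) ∧
    ¬ CondH nabla E := by
  have hm : 2 ≤ m := by
    by_contra h
    have : m - 2 = 0 := by omega
    rw [this, zero_mul] at hmr
    omega
  exact bundle_of_bad hR δ x hx halg α A T hT nabla E hE φ hφ hflat N (by omega)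
    (Pool.Agent.Q183.PS.extraPoints hmr hm α hα A N hN e he he' P hint h1 h2)

end Pool.Agent.Results.MP_0707f5_ag.CoversOfFourPoints
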