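import Pool.Agent.TH829.PC.Aff2
import Pool.Agent.TH190.E8.Affine6
import Pool.Agent.Q80.PB.Cond

set_option autoImplicit false

open Polynomial Pool.Agent.W77.IM Pool.Agent.W432.PC Pool.Agent.Q80.PB

/-!
# Hypothesis (H) fails for flat bundles on curves of any genus pulled back from systems of rank four
# and six with three singular points and one accessory parameter

For the description of flat bundles on curves see the result `CoversOfFourPoints`: the curve `C` has the
function field `F`, the bundle has the generic fibre `(V, ∇)`, and `E` is its restriction to an open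
part, spread out over `R`. If the ramification indices of `C → ℙ¹` over the three points are divisible by
the denominators of the exponents, then the pullback is a flat bundle on the proper curve `C`.
The accessory parameter and the covering `C → ℙ¹` are arbitrary.
-/

namespace Pool.Agent.Results.MP_0707f5_ag.CoversRankFourAndSix

universe u v w

/-- The indices `l < n` are divided into `k` consecutive blocks of `n / k` indices; the sum of the
squares of the numbers of elements of `S` in the blocks. -/
def sq (k n : ℕ) (S : Finset (Fin n)) : ℕ :=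
  ∑ j ∈ Finset.range k, (S.filter fun l : Fin n => (l : ℕ) / (n / k) = j).card ^ 2

/-- Let `∇₀ = d/dx - A 0 / (x - α 0) - A 1 / (x - α 1)` be a system of rank `n` over a domain `R` of
finite type over `ℤ`, of characteristic zero, with `α 0 - α 1` invertible. Let its exponents be
`e 0 l / N` at `α 0`, `e 1 l / N` at `α 1` and `e 2 l / N` at infinity, and let `P 0`, `P 1`, `P 2` be
the three points in some order. At `P i` the exponents fall into `k i` classes modulo `ℤ` of `n / k i`
elements each, where `1 / k 0 + 1 / k 1 + 1 / k 2 = 1` and `n = k 0 ≥ k 1 ≥ k 2`, not all equal; so the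
spectral type is `1111, 1111, 22` (`n = 4`) or `111111, 222, 33` (`n = 6`). In general the differences
of the `e i l`, `i` fixed, are prime to `N` or divisible by `N`. No resonance: if `S i` is a set of `r`
indices for each `i` and the sum over `i` of the sums of the squares of the numbers of elements of `S i`
in the blocks is `r ^ 2 + 2` (this is the condition on a rigid subobject of rank `r`), then the sum of
the `e (P i) l`, `l ∈ S i`, `i < 3`, is prime to `N`.

Let `C` be a curve over `Frac R`, of any genus, with the function field `F`, which is algebraic over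
`R(x)`, and let `(V, ∇)` be a flat bundle on `C` (the lattice `E` is its restriction to the part
`T(x) ≠ 0`, spread out over `R`) with a surjective flat homomorphism `φ` to the pullback of `∇₀` to `C`
(for example the pullback itself).

Then there are a residue class modulo `N`, prime to `N`, and a nonzero `g ∈ R` such that for all large
primes `p` in the class the `p`-curvature of `(V, ∇)` is nonzero at every closed point of
`Spec R[1/g]` of residue characteristic `p`. In particular hypothesis (H) fails. -/
theorem result {R : Type u} [CommRing R] [IsDomain R] [CharZero R] [Algebra.FiniteType ℤ R]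
    (α : Fin 2 → R) (hα : ∀ i j, i ≠ j → IsUnit (α i - α j)) (n : ℕ)
    (A : Fin 2 → Matrix (Fin n) (Fin n) R) (N : ℕ) (hN : 1 < N) (e : Fin 3 → Fin n → ℤ)
    (he0 : HasExponents (A 0) (fun l => (e 0 l : ℚ) / N))
    (he1 : HasExponents (A 1) (fun l => (e 1 l : ℚ) / N))
    (he2 : HasExponents (A 0 + A 1) (fun l => -(e 2 l : ℚ) / N))
    (P : Equiv.Perm (Fin 3)) (k : Fin 3 → ℕ)
    (hn : n = k 0) (h01 : k 1 ≤ k 0) (h12 : k 2 ≤ k 1) (h0 : 0 < k 2) (hne : k 2 ≠ k 0)
    (hk : (1 : ℚ) / k 0 + 1 / k 1 + 1 / k 2 = 1)
    (hb : ∀ i (l l' : Fin n), (l : ℕ) / (n / k i) = (l' : ℕ) / (n / k i) →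
      (N : ℤ) ∣ e (P i) l - e (P i) l')
    (h1 : ∀ i l l', IsCoprime (e i l - e i l') (N : ℤ) ∨ (N : ℤ) ∣ e i l - e i l')
    (h2 : ∀ (r : ℕ) (S : Fin 3 → Finset (Fin n)), (∀ i, (S i).card = r) →
      ∑ i, sq (k i) n (S i) = r ^ 2 + 2 → IsCoprime (∑ i, ∑ l ∈ S i, e (P i) l) (N : ℤ))
    -- the curve
    {F : Type v} [Field F] [Algebra R F] (hR : Function.Injective (algebraMap R F))
    (δ : Derivation R F F) (x : F) (hx : δ x = 1)
    (halg : ∀ z : F, IsAlgebraic (Algebra.adjoin R ({x} : Set F)) z)
    -- the flat bundle
    (T : R[X]) (hT : T ≠ 0) {V : Type w} [AddCommGroup V] [Module F V] (nabla : V →+ V)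
    (E : Submodule (CoordRing x T R) V) (hE : IsFlat δ x T nabla E)
    (φ : V →ₗ[F] (Fin n → F)) (hφ : Function.Surjective φ)
    (hflat : ∀ v, φ (nabla v) = pull δ x α A (φ v)) :
    (∃ a : ℤ, IsCoprime a (N : ℤ) ∧ ∃ g : R, g ≠ 0 ∧ ∃ P₀ : ℕ, ∀ p : ℕ, p.Prime → P₀ < p →
      (N : ℤ) ∣ a * p + 1 → ∀ (𝔪 : Ideal R) [𝔪.IsMaximal], (p : R) ∈ 𝔪 → g ∉ 𝔪 →
        ¬ PCurvAt nabla E p 𝔪) ∧
    ¬ CondH nabla E := by
  have hnz : NeZero n := ⟨by omega⟩
  have hbad : Pool.Agent.W280.PC.BadClass α A N := by
    by_contra hno
    exact Pool.Agent.TH829.PC.arithU h0 h12 h01 hne hk hn N hN (fun i => e (P i)) hb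
      (fun i => h1 (P i)) h2 (fun a ha => Pool.Agent.TH190.E8.good_perm
        (Pool.Agent.W280.PE.good_all α hα A N hN e he0 he1 he2 hno a ha) P)
  exact bundle_of_bad hR δ x hx halg α A T hT nabla E hE φ hφ hflat N (by omega) hbad

end Pool.Agent.Results.MP_0707f5_ag.CoversRankFourAndSix
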