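import Pool.Agent.Q80.PB.Dens

set_option autoImplicit false

open Polynomial Pool.Agent.W77.IM Pool.Agent.W432.PC Pool.Agent.W432.TC Pool.Agent.W432.HK
open Pool.Agent.Y227.SS Pool.Agent.TH571.GP Pool.Agent.Y227.TP Pool.Agent.Q80.PB

/-!
# A uniform density theorem for `p`-curvatures of flat bundles on curves pulled back from the line

For the description of flat bundles on curves see the result `CoversOfFourPoints`: the curve `C` has the
function field `F`, the bundle has the generic fibre `(V, ∇)`, and `E` is its restriction to an open
part, spread out over `R`. The constant `ε` and the exceptional set depend only on the rank and on the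
number of the singular points of the system on the line. They do not depend on the curve, on its genus,
on the degree of the covering of the line, on the number field or on the exponents.
-/

namespace Pool.Agent.Results.MP_0707f5_ag.CoversSpectralDensity

universe u v w

/-- For all `n`, `r` there are `ε > 0` and a finite set `𝒟` of torsion cosets in the torus of exponents,
all of whose points are the weights of semistable parabolic bundles of parabolic degree zero on the
projective line over `ℂ`, and which have many relations on every spectral type (`Adapted`), with the
following property. Let `∇₀ = d/dx - ∑ j, A j / (x - α j)` be a system of rank `r` with `n` finite poles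
over a domain `R` of characteristic zero which is finitely generated and algebraic over `ℤ` (an order in
a number field `K` with finitely many elements inverted), with `α i - α j` invertible for `i ≠ j`. Let
`C` be a curve over `K`, of any genus, with the function field `F`, which is algebraic over `R(x)`, and
let `(V, ∇)` be a flat bundle on `C` (the lattice `E` is its restriction to the part `T(x) ≠ 0`) with a
surjective flat homomorphism `φ` to the pullback of `∇₀` to `C` (for example the pullback itself).

(1) If the exponents of `∇₀` are rational, with a common denominator `N`, then either there are at least
`ε φ(N)` residue classes modulo `N` such that the `p`-curvature of `(V, ∇)` is nonzero at every closed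
point of residue characteristic `p`, for all large primes `p` in these classes; or the exponents are on
one of the cosets, all their multiples by integers `a` prime to `N` are the weights of semistable
parabolic bundles of parabolic degree zero and, if the system is irreducible (over all extensions), of
stable ones.

(2) If for arbitrarily large `X` there are fewer than `ε π(X)` primes `p ≤ X` such that the
`p`-curvature of `(V, ∇)` is nonzero at some closed point of residue characteristic `p` (for example if
hypothesis (H) holds), then all residues `A j` and `∑ j, A j` of `∇₀` are diagonalizable with rational
eigenvalues and the second alternative of (1) holds. -/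
theorem result (n r : ℕ) :
    ∃ (ε : ℝ) (𝒟 : Finset (AddSubgroup (ExponentIndex n r → ℤ) × (ExponentIndex n r → ℚ))),
      0 < ε ∧ (∀ C ∈ 𝒟, Adapted C) ∧
      ∀ (R : Type u) [CommRing R] [IsDomain R] [CharZero R] [Algebra.FiniteType ℤ R]
        [Algebra.IsAlgebraic ℤ R] (α : Fin n → R) (A : Fin n → Matrix (Fin r) (Fin r) R),
        (∀ i j, i ≠ j → IsUnit (α i - α j)) →
        -- the curve and the flat bundle
        ∀ (F : Type v) [Field F] [Algebra R F] (δ : Derivation R F F) (x : F) (T : R[X])
          (V : Type w) [AddCommGroup V] [Module F V] (nabla : V →+ V)
          (E : Submodule (CoordRing x T R) V) (φ : V →ₗ[F] (Fin r → F)),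
          Function.Injective (algebraMap R F) → δ x = 1 →
          (∀ z : F, IsAlgebraic (Algebra.adjoin R ({x} : Set F)) z) → T ≠ 0 →
          IsFlat δ x T nabla E → Function.Surjective φ →
          (∀ v, φ (nabla v) = pull δ x α A (φ v)) →
        (∀ lam phi N, (∀ j, HasExponents (A j) (lam j)) → HasExponents (∑ j, A j) phi →
          CommonDen lam phi N → BadClassesE nabla E N ε ∨
            (ConjGood α A lam phi N ∧ ∃ C ∈ 𝒟, InCoset C.1 C.2 (pt lam phi))) ∧
        (Few (BadE nabla E) ε → ∃ lam phi, (∀ j, DiagExps (A j) (lam j)) ∧
          DiagExps (∑ j, A j) phi ∧ (∀ N, CommonDen lam phi N → ConjGood α A lam phi N) ∧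
          ∃ C ∈ 𝒟, InCoset C.1 C.2 (pt lam phi)) :=
  density_bundle n r

end Pool.Agent.Results.MP_0707f5_ag.CoversSpectralDensity
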